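import Pool.Agent.H18.QGR.Stmts

set_option autoImplicit false

noncomputable section

namespace Pool.QGR

open Pool.CGR

namespace INV66

variable {m : ℕ}

theorem sum_wn_succ (n : ℕ) (F : List (Fin m) → ℂ) :
    ∑ w ∈ wn m (n + 1), F w = ∑ a : Fin m, ∑ w ∈ wn m n, F (a :: w) := by
  rw [← Finset.sum_product' Finset.univ (wn m n) (fun a w => F (a :: w))]
  symm
  apply Finset.sum_bij (fun (x : Fin m × List (Fin m)) _ => x.1 :: x.2)
  · intro x hx
    rw [mem_wn, List.length_cons, mem_wn.1 (Finset.mem_product.1 hx).2]
  · rintro ⟨a, w⟩ _ ⟨b, u⟩ _ h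
    simp only [List.cons.injEq] at h
    exact Prod.ext h.1 h.2
  · intro w hw
    rw [mem_wn] at hw
    cases w with
    | nil => simp at hw
    | cons a u =>
      refine ⟨(a, u), ?_, rfl⟩
      simp only [Finset.mem_product, Finset.mem_univ, true_and, mem_wn]
      simpa using hw
  · intro x _
    rfl

theorem sum_wn_rev (n : ℕ) (F : List (Fin m) → ℂ) :
    ∑ w ∈ wn m n, F w = ∑ w ∈ wn m n, F w.reverse := by
  apply Finset.sum_bij (fun (w : List (Fin m)) _ => w.reverse)
  · intro w hw
    rw [mem_wn] at hw ⊢
    simpa using hw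
  · intro w _ u _ h
    exact List.reverse_injective h
  · intro w hw
    refine ⟨w.reverse, ?_, by simp⟩
    rw [mem_wn] at hw ⊢
    simpa using hw
  · intro w _
    simp

theorem sum_wn_zero (F : List (Fin m) → ℂ) : ∑ w ∈ wn m 0, F w = F [] := by
  have : wn m 0 = {([] : List (Fin m))} := by
    ext w
    rw [mem_wn, Finset.mem_singleton, List.length_eq_zero_iff]
  rw [this, Finset.sum_singleton]

/-- the recursion for the reversed pairing -/
def Rec (q : Fin m → Fin m → ℝ) (p' : List (Fin m) → List (Fin m) → ℂ) : Prop :=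
  ∀ (a : Fin m) (w v : List (Fin m)), v.length = w.length + 1 →
    p' (a :: w) v = ∑ k ∈ Finset.range v.length,
      if v[k]? = some a then om q a (v.take k) * p' w (v.eraseIdx k) else 0

theorem swap (q : Fin m → Fin m → ℝ) (p' : List (Fin m) → List (Fin m) → ℂ) (hp : Rec q p')
    (n : ℕ) (J G : List (Fin m) → ℂ)
    (hG : ∀ (a : Fin m) (v : List (Fin m)), v.length = n →
      G (a :: v) = ∑ w ∈ wn m n, J (a :: w) * p' w v)
    (v : List (Fin m)) (hv : v.length = n + 1) :
    ∑ w ∈ wn m (n + 1), J w * p' w v = ∑ k ∈ Finset.range (n + 1),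
      if h : k < v.length then om q v[k] (v.take k) * G (v[k] :: v.eraseIdx k) else 0 := by
  rw [sum_wn_succ]
  have h1 : ∀ a : Fin m, ∑ w ∈ wn m n, J (a :: w) * p' (a :: w) v =
      ∑ k ∈ Finset.range (n + 1), if v[k]? = some a then
        om q a (v.take k) * G (a :: v.eraseIdx k) else 0 := by
    intro a
    calc ∑ w ∈ wn m n, J (a :: w) * p' (a :: w) v
        = ∑ w ∈ wn m n, ∑ k ∈ Finset.range (n + 1), J (a :: w) *
            (if v[k]? = some a then om q a (v.take k) * p' w (v.eraseIdx k) else 0) := by
          refine Finset.sum_congr rfl fun w hw => ?_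
          rw [hp a w v (by rw [hv, mem_wn.1 hw]), Finset.mul_sum, hv]
      _ = ∑ k ∈ Finset.range (n + 1), ∑ w ∈ wn m n, J (a :: w) *
            (if v[k]? = some a then om q a (v.take k) * p' w (v.eraseIdx k) else 0) :=
          Finset.sum_comm
      _ = _ := by
          refine Finset.sum_congr rfl fun k hk => ?_
          split_ifs with h
          · rw [hG a _ (by
              rw [List.length_eraseIdx_of_lt (by rw [hv]; exact Finset.mem_range.1 hk), hv]
              rfl), Finset.mul_sum]
            refine Finset.sum_congr rfl fun w _ => ?_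
            ring
          · simp
  rw [Finset.sum_congr rfl (fun a _ => h1 a), Finset.sum_comm]
  refine Finset.sum_congr rfl fun k hk => ?_
  have hk' : k < v.length := by rw [hv]; exact Finset.mem_range.1 hk
  rw [dif_pos hk']
  have h2 : v[k]? = some v[k] := List.getElem?_eq_getElem hk'
  rw [Finset.sum_eq_single v[k]]
  · rw [if_pos h2]
  · intro a _ ha
    rw [if_neg]
    rw [h2]
    intro h
    exact ha (Option.some.inj h).symm
  · intro h
    exact absurd (Finset.mem_univ _) h

theorem main (hN : NEUStmt) (hO : OPTStmt) (q : Fin m → Fin m → ℝ) (Q : ℝ) (hQ : SQ q Q)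
    (p' : List (Fin m) → List (Fin m) → ℂ) (h0 : p' [] [] = 1) (hp : Rec q p') : ∀ n : ℕ,
      (∀ (c : List (Fin m) → ℂ) (B : ℝ), 0 ≤ B → (∀ v, v.length = n → ‖c v‖ ≤ B) →
        ∃ j : List (Fin m) → ℂ, (∀ w, ‖j w‖ ≤ Real.exp (2 / (1 - Q) ^ 2) ^ n * B) ∧
          ∀ v : List (Fin m), v.length = n → ∑ w ∈ wn m n, j w * p' w v = c v) ∧
      ∀ b : List (Fin m) → ℂ,
        (∀ v : List (Fin m), v.length = n → ∑ w ∈ wn m n, b w * p' w v = 0) →
        ∀ w : List (Fin m), w.length = n → b w = 0 := by
  obtain ⟨T, hT1, hT2, hT3, hT4⟩ := hO m q Q hQ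
  have hnt : Nontrivial (Bd m) := by
    refine ⟨⟨⟨fun _ => 1, memℓp_infty ⟨1, ?_⟩⟩, 0, fun h => ?_⟩⟩
    · rintro _ ⟨i, rfl⟩
      simp
    · have := congrArg (fun f : Bd m => f []) h
      simp at this
  intro n
  induction n with
  | zero =>
    refine ⟨fun c B hB hc => ⟨fun _ => c [], fun w => ?_, fun v hv => ?_⟩, fun b hb w hw => ?_⟩
    · rw [pow_zero, one_mul]
      exact hc [] rfl
    · rw [List.length_eq_zero_iff] at hv
      rw [sum_wn_zero, hv, h0, mul_one]
    · rw [List.length_eq_zero_iff] at hw
      have := hb [] rfl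
      rw [sum_wn_zero, h0, mul_one] at this
      rw [hw, this]
  | succ n ih =>
    obtain ⟨U, hU1, hU2, hU3⟩ := hN (Bd m →L[ℂ] Bd m) T Q hQ.nonneg hQ.lt hT1 hT2 hT3 n
    obtain ⟨S, hS⟩ : ∃ S : Bd m →L[ℂ] Bd m,
      S = ∑ k ∈ Finset.range (n + 1), ((List.range k).reverse.map T).prod := ⟨_, rfl⟩
    rw [← hS] at hU1 hU2
    have hSv : ∀ (f : Bd m) (v : List (Fin m)), v ≠ [] → (S f) v = ∑ k ∈ Finset.range (n + 1),
        if h : k < v.length then om q v[k] (v.take k) * f (v[k] :: v.eraseIdx k) else 0 := by
      intro f v hv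
      rw [hS, ContinuousLinearMap.sum_apply, lp.coeFn_sum, Finset.sum_apply]
      exact Finset.sum_congr rfl fun k _ => hT4 k f v (Or.inr hv)
    have hSn : ∀ f : Bd m, (S f) [] = f [] := by
      intro f
      rw [hS, ContinuousLinearMap.sum_apply, lp.coeFn_sum, Finset.sum_apply,
        Finset.sum_eq_single 0]
      · simp
      · intro k _ hk
        rw [hT4 k f [] (Or.inl hk)]
        simp
      · intro h
        exact absurd (Finset.mem_range.2 (Nat.succ_pos n)) h
    have hne : ∀ v : List (Fin m), v.length = n + 1 → v ≠ [] := by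
      rintro v hv rfl
      simp at hv
    refine ⟨fun c B hB hc => ?_, fun b hb => ?_⟩
    · obtain ⟨c', hc'⟩ : ∃ c' : Bd m, ∀ v, c' v = if v.length = n + 1 then c v else 0 := by
        refine ⟨⟨fun v => if v.length = n + 1 then c v else 0, memℓp_infty ⟨B, ?_⟩⟩,
          fun v => rfl⟩
        rintro _ ⟨v, rfl⟩
        simp only []
        split_ifs with h
        · exact hc v h
        · simpa using hB
      have nc' : ‖c'‖ ≤ B := by
        refine lp.norm_le_of_forall_le hB fun v => ?_
        rw [hc']
        split_ifs with h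
        · exact hc v h
        · simpa using hB
      obtain ⟨G, hG⟩ : ∃ G : Bd m, G = U c' := ⟨_, rfl⟩
      obtain ⟨K, hK⟩ : ∃ K : ℝ, K = Real.exp (2 / (1 - Q) ^ 2) := ⟨_, rfl⟩
      rw [← hK] at hU3 ih ⊢
      have hK0 : 0 ≤ K := by rw [hK]; exact (Real.exp_pos _).le
      have nG : ‖G‖ ≤ K * B := by
        rw [hG]
        exact (U.le_opNorm c').trans (mul_le_mul hU3 nc' (norm_nonneg _) hK0)
      have hSG : S G = c' := by
        rw [hG]
        have := congrArg (fun (W : Bd m →L[ℂ] Bd m) => W c') hU2
        simpa using this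
      have hJ : ∀ a : Fin m, ∃ j : List (Fin m) → ℂ, (∀ w, ‖j w‖ ≤ K ^ n * (K * B)) ∧
          ∀ v : List (Fin m), v.length = n → ∑ w ∈ wn m n, j w * p' w v = G (a :: v) := by
        intro a
        exact ih.1 (fun v => G (a :: v)) (K * B) (mul_nonneg hK0 hB)
          (fun v _ => (lp.norm_apply_le_norm ENNReal.top_ne_zero G (a :: v)).trans nG)
      choose Ja hJa1 hJa2 using hJ
      refine ⟨fun w => match w with
        | [] => 0
        | a :: u => Ja a u, fun w => ?_, fun v hv => ?_⟩
      · cases w with
        | nil =>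
          simp only [norm_zero]
          positivity
        | cons a u =>
          simp only []
          calc ‖Ja a u‖ ≤ K ^ n * (K * B) := hJa1 a u
            _ = K ^ (n + 1) * B := by ring
      · rw [swap q p' hp n _ (fun v => G v) (fun a u hu => (hJa2 a u hu).symm) v hv,
          ← hSv G v (hne v hv), hSG, hc', if_pos hv]
    · obtain ⟨G0, hG0⟩ : ∃ G0 : List (Fin m) → ℂ, ∀ u, G0 u = match u with
          | [] => 0
          | a :: v => if v.length = n then ∑ w ∈ wn m n, b (a :: w) * p' w v else 0 :=
        ⟨_, fun u => rfl⟩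
      have hG0c : ∀ (a : Fin m) (v : List (Fin m)), v.length = n →
          G0 (a :: v) = ∑ w ∈ wn m n, b (a :: w) * p' w v := by
        intro a v hv
        rw [hG0]
        simp only [if_pos hv]
      have hG0n : ∀ u : List (Fin m), u.length ≠ n + 1 → G0 u = 0 := by
        intro u hu
        rw [hG0]
        cases u with
        | nil => rfl
        | cons a v =>
          have : v.length ≠ n := by
            intro h
            apply hu
            rw [List.length_cons, h]
          simp only [if_neg this]
      obtain ⟨G, hG⟩ : ∃ G : Bd m, ∀ u, G u = G0 u := by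
        refine ⟨⟨G0, memℓp_infty ⟨∑ w ∈ wn m (n + 1), ‖G0 w‖, ?_⟩⟩, fun u => rfl⟩
        rintro _ ⟨u, rfl⟩
        by_cases hu : u.length = n + 1
        · exact Finset.single_le_sum (f := fun w => ‖G0 w‖) (fun w _ => norm_nonneg _)
            (mem_wn.2 hu)
        · simp only [hG0n u hu, norm_zero]
          exact Finset.sum_nonneg fun w _ => norm_nonneg _
      have hSG : S G = 0 := by
        apply lp.ext
        funext v
        by_cases hv0 : v = []
        · rw [hv0, hSn, hG, hG0]
          rfl
        rw [hSv G v hv0]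
        by_cases hv : v.length = n + 1
        · have := swap q p' hp n b (fun u => G u) (fun a u hu => by
            simp only [hG]; exact hG0c a u hu) v hv
          rw [hb v hv] at this
          simpa using this.symm
        · rw [Finset.sum_eq_zero]
          · simp
          · intro k _
            split_ifs with h
            · rw [hG, hG0n, mul_zero]
              rw [List.length_cons, List.length_eraseIdx_of_lt h]
              have : 0 < v.length := by omega
              omega
            · rfl
      have hG00 : G = 0 := by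
        have h1 := congrArg (fun (W : Bd m →L[ℂ] Bd m) => W G) hU1
        have h2 : U (S G) = G := by simpa using h1
        rw [← h2, hSG, map_zero]
      intro w hw
      cases w with
      | nil => simp at hw
      | cons a u =>
        have hu : u.length = n := by simpa using hw
        refine ih.2 (fun u => b (a :: u)) (fun v hv => ?_) u hu
        rw [← hG0c a v hv, ← hG, hG00]
        rfl

end INV66

open INV66

theorem inv_thm (hN : NEUStmt) (hO : OPTStmt) : INVStmt := by
  intro m q Q hQ p h0 hp n
  have hp' : Rec q (fun w v => p w.reverse v) := by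
    intro a w v hv
    simp only [List.reverse_cons]
    exact hp a w.reverse v (by rw [List.length_reverse]; exact hv)
  obtain ⟨h1, h2⟩ := main hN hO q Q hQ (fun w v => p w.reverse v) (by simpa using h0) hp' n
  refine ⟨fun c B hB hc => ?_, fun b hb w hw => ?_⟩
  · obtain ⟨j, hj1, hj2⟩ := h1 c B hB hc
    refine ⟨fun w => j w.reverse, fun w => hj1 _, fun v hv => ?_⟩
    rw [sum_wn_rev, ← hj2 v hv]
    refine Finset.sum_congr rfl fun w _ => ?_
    simp
  · have := h2 (fun w => b w.reverse) (fun v hv => ?_) w.reverse (by simpa using hw)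
    · simpa using this
    · rw [← hb v hv, sum_wn_rev n (fun w => b w * p w v)]

end Pool.QGR
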